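import Pool.Agent.Q224.AC.Main

/-!
# Approximate covering of the segment is not solvable under the ASYNC scheduler

With neighbour visibility, no deterministic protocol for oblivious anonymous sensors guarantees an
`ε`-approximate covering for every number of sensors, every initial placement, every admissible
asynchronous execution and every `ε > 0`.  This holds even if all sensors share one orientation
and one unit of length, can detect how many sensors share their place, and a covering may be
formed in any order of the sensors.
-/

namespace Pool.Agent.Results.MP_362848_lc.AsyncCoveringImpossible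

open Pool.Agent.Q224.AC

theorem result :
    ¬ Solvable ∧
    ∀ P : Protocol, ∃ (m : ℕ) (c : ℝ), c ≠ 0 ∧ ∃ x : ℝ → Fin (m + 2) → ℝ,
      Admissible P (fun _ => c) x ∧
        ∃ ε : ℝ, 0 < ε ∧ ∀ t, 0 ≤ t → ¬ CoveredUpToOrder ε (x t) :=
  ⟨not_solvable, exists_bad⟩

end Pool.Agent.Results.MP_362848_lc.AsyncCoveringImpossible
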